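import Pool.Agent.V11134.RB.Plus2

/-!
# MP_bfacb1_co: the set of colour counts of proper colourings without a rainbow copy need not be an
interval
-/

set_option autoImplicit false

namespace Pool.Agent.Results.MP_bfacb1_co.NotInterval

open Pool.Agent.V11134.RB

/-- The set of all `k ≥ 1` such that `G` has a proper edge colouring which uses exactly `k` colours and
has no rainbow copy of `H`. -/
def K {V W : Type} (G : SimpleGraph W) (H : SimpleGraph V) : Set ℕ :=
  {k | 1 ≤ k ∧ ∃ c : Sym2 W → ℕ, IsProper G c ∧ numColours G c = k ∧ ¬ HasRainbow H G c}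

/-- There are finite graphs `G`, `H` and integers `a < b < c` with `a ∈ K(G, H)`, `c ∈ K(G, H)` but
`b ∉ K(G, H)`. -/
theorem result : ∃ (V W : Type) (_ : Fintype V) (_ : Fintype W) (H : SimpleGraph V)
    (G : SimpleGraph W) (a b c : ℕ), a < b ∧ b < c ∧ a ∈ K G H ∧ b ∉ K G H ∧ c ∈ K G H := by
  classical
  obtain ⟨W, hW, G, hall, c1, hc1, hno⟩ := core 1 1 le_rfl
  set H := guest (10 * (4 * (1 + 1))) (1 + 1) with hH
  have hHconn : H.Connected := guest_connected _ _
  have t1 : H.Adj .root .al := guest_adj.2 (Or.inl trivial)
  have t2 : H.Adj .root .be := guest_adj.2 (Or.inl trivial)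
  have t3 : H.Adj .al .be := guest_adj.2 (Or.inl trivial)
  -- an optimal colouring of the host
  set d := chromaticIndex G with hd
  have hne : {n | ∃ c : Sym2 W → ℕ, IsProper G c ∧ numColours G c = n}.Nonempty :=
    ⟨_, c1, hc1, rfl⟩
  obtain ⟨c0, hc0, hnum0⟩ : d ∈ {n | ∃ c : Sym2 W → ℕ, IsProper G c ∧ numColours G c = n} :=
    Nat.sInf_mem hne
  have hHle : H.edgeSet.ncard ≤ d := by
    have := (hall c0 hc0 (by omega)).le
    omega
  have hHpos : 1 ≤ H.edgeSet.ncard := by
    have hmem : s(GV.root, GV.al) ∈ H.edgeSet := t1
    exact (Set.ncard_pos (Set.toFinite _)).2 ⟨_, hmem⟩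
  set e := d + 1 - H.edgeSet.ncard with he
  have hplus := le_ncard_plusGuest H e
  refine ⟨_, _, inferInstance, inferInstance, plusGuest H e, plusHost G (2 * d + 3) d, d, d + 1,
    numColours (plusHost G (2 * d + 3) d) (plusCol c1 (fun i : Fin d => i.val)),
    Nat.lt_succ_self d, ?_, ?_, ?_, ?_⟩
  · -- the last colouring uses many colours
    by_contra hlt
    rw [not_lt] at hlt
    have h1 := numColours_restr_le (G := G) (L := 2 * d + 3)
      (plusCol c1 (fun i : Fin d => i.val)) true
    rw [restr_plusCol] at h1
    exact hno (hall c1 hc1 (by omega))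
  · -- `d` colours
    refine ⟨by omega, ?_⟩
    have hfin : (c0 '' G.edgeSet).Finite := (Set.toFinite _).image _
    have hcard : hfin.toFinset.card = d := by
      rw [← hnum0]
      exact (Set.ncard_eq_toFinset_card _ hfin).symm
    let e0 : Fin d ≃ {q // q ∈ hfin.toFinset} :=
      (Fintype.equivFinOfCardEq (by simpa using hcard)).symm
    have hs0 : Function.Injective (fun i => (e0 i).1) := fun i j h =>
      e0.injective (Subtype.ext h)
    refine ⟨plusCol c0 (fun i => (e0 i).1), isProper_plusCol hc0 hs0, ?_, ?_⟩
    · apply le_antisymm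
      · have hsub : (plusCol (L := 2 * d + 3) c0 (fun i => (e0 i).1)) ''
            (plusHost G (2 * d + 3) d).edgeSet ⊆ c0 '' G.edgeSet := by
          rintro _ ⟨x, hx, rfl⟩
          induction x using Sym2.ind with
          | _ u v =>
            rcases u with ⟨b, u⟩ | ⟨l, u⟩ <;> rcases v with ⟨b', v⟩ | ⟨l', v⟩
            · exact ⟨s(u, v), hx.2, rfl⟩
            · exact hx.elim
            · exact hx.elim
            · obtain ⟨-, h2⟩ := hx
              rcases u with _ | i <;> rcases v with _ | j
              · simp at h2
              · exact hfin.mem_toFinset.1 (e0 j).2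
              · exact hfin.mem_toFinset.1 (e0 i).2
              · simp at h2
        have h1 := Set.ncard_le_ncard hsub hfin
        exact h1.trans hnum0.le
      · have h1 := numColours_restr_le (G := G) (L := 2 * d + 3)
          (plusCol c0 (fun i => (e0 i).1)) true
        rw [restr_plusCol] at h1
        omega
    · intro hr
      have h1 := hr.le
      have h2 : numColours (plusHost G (2 * d + 3) d)
          (plusCol (L := 2 * d + 3) c0 (fun i => (e0 i).1)) ≤ d := by
        have hsub : (plusCol (L := 2 * d + 3) c0 (fun i => (e0 i).1)) ''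
            (plusHost G (2 * d + 3) d).edgeSet ⊆ c0 '' G.edgeSet := by
          rintro _ ⟨x, hx, rfl⟩
          induction x using Sym2.ind with
          | _ u v =>
            rcases u with ⟨b, u⟩ | ⟨l, u⟩ <;> rcases v with ⟨b', v⟩ | ⟨l', v⟩
            · exact ⟨s(u, v), hx.2, rfl⟩
            · exact hx.elim
            · exact hx.elim
            · obtain ⟨-, h2⟩ := hx
              rcases u with _ | i <;> rcases v with _ | j
              · simp at h2
              · exact hfin.mem_toFinset.1 (e0 j).2
              · exact hfin.mem_toFinset.1 (e0 i).2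
              · simp at h2
        exact (Set.ncard_le_ncard hsub hfin).trans hnum0.le
      omega
  · -- every colouring with `d + 1` colours has a rainbow copy
    rintro ⟨-, c, hc, hnum, hnr⟩
    refine hnr (plus_rainbow hc hnum (fun b => ?_))
    refine hall _ (isProper_restr hc b) ?_
    exact (numColours_restr_le c b).trans hnum.le
  · -- many colours
    have hbad : ¬ HasRainbow (plusGuest H e) (plusHost G (2 * d + 3) d)
        (plusCol c1 (fun i : Fin d => i.val)) := by
      intro hr
      obtain ⟨b, hb⟩ := rainbow_of_plus hHconn t1 t2 t3 hr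
      rw [restr_plusCol] at hb
      exact hno hb
    refine ⟨?_, _, isProper_plusCol hc1 (fun i j h => Fin.ext h), rfl, hbad⟩
    by_contra hlt
    have h1 := numColours_restr_le (G := G) (L := 2 * d + 3)
      (plusCol c1 (fun i : Fin d => i.val)) true
    rw [restr_plusCol] at h1
    exact hno (hall c1 hc1 (by omega))

end Pool.Agent.Results.MP_bfacb1_co.NotInterval
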